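import Pool.Agent.Q284.PX.Stm4

/-!
# Project PX4 of helper284: lemma BPT (base points)
-/

set_option autoImplicit false

open Finset

namespace Pool.Agent.Q79.PX

open Pool.Agent.Q284.PX (lin)

theorem lin_add {r : ℕ} (c φ ψ : Fin r → ℝ) : lin c (fun i => φ i + ψ i) = lin c φ + lin c ψ := by
  unfold lin
  rw [← Finset.sum_add_distrib]
  exact Finset.sum_congr rfl fun i _ => by ring

theorem lin_mul {r : ℕ} (c φ : Fin r → ℝ) (k : ℝ) : lin c (fun i => k * φ i) = k * lin c φ := by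
  unfold lin
  rw [Finset.mul_sum]
  exact Finset.sum_congr rfl fun i _ => by ring

/-- the linear form as an element of the dual space -/
noncomputable def linD {r : ℕ} (c : Fin r → ℝ) : Module.Dual ℝ (Fin r → ℝ) where
  toFun := lin c
  map_add' φ ψ := lin_add c φ ψ
  map_smul' k φ := lin_mul c φ k

theorem linD_apply {r : ℕ} (c φ : Fin r → ℝ) : linD c φ = lin c φ := rfl

theorem lin_comm {r : ℕ} (c φ : Fin r → ℝ) : lin c φ = lin φ c := by
  unfold lin
  exact Finset.sum_congr rfl fun i _ => by ring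

theorem lin_self_eq_zero {r : ℕ} {c : Fin r → ℝ} (h : lin c c = 0) : c = 0 := by
  unfold lin at h
  funext i
  have h1 := (Finset.sum_eq_zero_iff_of_nonneg (fun i _ => mul_self_nonneg (c i))).1 h i (Finset.mem_univ i)
  exact mul_self_eq_zero.1 h1

/-- among two consecutive integers one has a large denominator -/
theorem good_int (N : ℕ) (j₁ : ℤ) : ∃ j : ℤ, (j = j₁ ∨ j = j₁ + 1) ∧
    ∀ k : ℕ, 1 ≤ k → k ^ 2 < N → ¬ (N : ℤ) ∣ (k : ℤ) * j := by
  by_contra hcon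
  push Not at hcon
  obtain ⟨k, hk1, hk2, hk3⟩ := hcon j₁ (Or.inl rfl)
  obtain ⟨l, hl1, hl2, hl3⟩ := hcon (j₁ + 1) (Or.inr rfl)
  have h1 : (N : ℤ) ∣ (k : ℤ) * l := by
    have h2 : (N : ℤ) ∣ (k : ℤ) * ((l : ℤ) * (j₁ + 1)) := Dvd.dvd.mul_left hl3 _
    have h3 : (N : ℤ) ∣ (l : ℤ) * ((k : ℤ) * j₁) := Dvd.dvd.mul_left hk3 _
    have h4 := dvd_sub h2 h3
    have h5 : (k : ℤ) * ((l : ℤ) * (j₁ + 1)) - (l : ℤ) * ((k : ℤ) * j₁) = (k : ℤ) * l := by ring
    rwa [h5] at h4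
  have h2 : N ∣ k * l := by exact_mod_cast h1
  have h3 : N ≤ k * l := Nat.le_of_dvd (Nat.mul_pos hk1 hl1) h2
  have h4 : (k * l) ^ 2 < N ^ 2 := by
    rw [mul_pow]
    calc k ^ 2 * l ^ 2 < N * l ^ 2 := Nat.mul_lt_mul_of_pos_right hk2 (by positivity)
      _ ≤ N * N := Nat.mul_le_mul_left N hl2.le
      _ = N ^ 2 := by ring
  have h5 : k * l < N := lt_of_pow_lt_pow_left₀ 2 (Nat.zero_le _) h4
  omega

/-- a direction in the kernel of `lin (α a₀)` on which the other forms do not vanish -/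
theorem dir {A : Type} [Fintype A] [DecidableEq A] {r : ℕ} (α : A → Fin r → ℝ) (a₀ : A) (h0 : α a₀ ≠ 0)
    (hli : ∀ b : A, b ≠ a₀ → LinearIndependent ℝ ![α a₀, α b]) :
    ∃ ξ : Fin r → ℝ, lin (α a₀) ξ = 0 ∧ ∀ b, b ≠ a₀ → lin (α b) ξ ≠ 0 := by
  have h1 : ∀ b : {b : A // b ≠ a₀}, ∃ x ∈ LinearMap.ker (linD (α a₀)), linD (α b.1) x ≠ 0 := by
    rintro ⟨b, hb⟩
    obtain ⟨ξ, hξ⟩ : ∃ ξ : Fin r → ℝ, ξ = fun i => lin (α a₀) (α a₀) * α b i + (- lin (α b) (α a₀)) * α a₀ i :=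
      ⟨_, rfl⟩
    have e1 : ∀ c : Fin r → ℝ, lin c ξ = lin (α a₀) (α a₀) * lin c (α b) + (- lin (α b) (α a₀)) * lin c (α a₀) := by
      intro c
      rw [hξ, lin_add c (fun i => lin (α a₀) (α a₀) * α b i), lin_mul, lin_mul]
    have e2 : lin (α a₀) ξ = 0 := by
      rw [e1, lin_comm (α a₀) (α b)]; ring
    refine ⟨ξ, by rw [LinearMap.mem_ker, linD_apply, e2], ?_⟩
    rw [linD_apply]
    intro h3
    have h4 : lin ξ ξ = 0 := by
      rw [e1 ξ, lin_comm ξ (α b), lin_comm ξ (α a₀), h3, e2]; ring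
    have h5 := lin_self_eq_zero h4
    have h6 := (LinearIndependent.pair_iff.1 (hli b hb)) (- lin (α b) (α a₀)) (lin (α a₀) (α a₀)) (by
      funext i
      have := congrFun h5 i
      rw [hξ] at this
      simp only [Pi.zero_apply] at this
      simp only [Pi.add_apply, Pi.smul_apply, smul_eq_mul, Pi.zero_apply]
      linarith)
    exact h0 (lin_self_eq_zero h6.2)
  obtain ⟨x, hx1, hx2⟩ := Module.Dual.exists_forall_mem_ne_zero_of_forall_exists
    (LinearMap.ker (linD (α a₀))) (fun b : {b : A // b ≠ a₀} => linD (α b.1)) h1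
  rw [LinearMap.mem_ker, linD_apply] at hx1
  exact ⟨x, hx1, fun b hb => hx2 ⟨b, hb⟩⟩

theorem t_BPT : Pool.Agent.Q284.PX.S_BPT := by
  intro A _ _ r α a₀ h0 hli
  -- the vector `η`
  have hs0 : lin (α a₀) (α a₀) ≠ 0 := fun h => h0 (lin_self_eq_zero h)
  obtain ⟨η, hη⟩ : ∃ η : Fin r → ℝ, lin (α a₀) η = 1 := by
    refine ⟨fun i => (lin (α a₀) (α a₀))⁻¹ * α a₀ i, ?_⟩
    rw [lin_mul, inv_mul_cancel₀ hs0]
  -- the direction
  obtain ⟨ξ₀, hξ0, hξ1⟩ := dir α a₀ h0 hli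
  obtain ⟨T, hT⟩ : ∃ T : ℝ, T = 1 + ∑ b, |lin (α b) ξ₀| := ⟨_, rfl⟩
  have hT0 : 0 < T := by
    have : 0 ≤ ∑ b, |lin (α b) ξ₀| := Finset.sum_nonneg fun b _ => abs_nonneg _
    linarith
  obtain ⟨ξ, hξ⟩ : ∃ ξ : Fin r → ℝ, ξ = fun i => T⁻¹ * ξ₀ i := ⟨_, rfl⟩
  have hξl : ∀ c : Fin r → ℝ, lin c ξ = T⁻¹ * lin c ξ₀ := fun c => by rw [hξ, lin_mul]
  have hξa : lin (α a₀) ξ = 0 := by rw [hξl, hξ0, mul_zero]
  have hξne : ∀ b, b ≠ a₀ → lin (α b) ξ ≠ 0 := fun b hb => by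
    rw [hξl]; exact mul_ne_zero (inv_ne_zero hT0.ne') (hξ1 b hb)
  have hξle : ∀ b, |lin (α b) ξ| ≤ 1 := by
    intro b
    rw [hξl, abs_mul, abs_of_pos (inv_pos.2 hT0), inv_mul_le_iff₀ hT0, mul_one]
    have : |lin (α b) ξ₀| ≤ ∑ b, |lin (α b) ξ₀| :=
      Finset.single_le_sum (f := fun b => |lin (α b) ξ₀|) (fun b _ => abs_nonneg _) (Finset.mem_univ b)
    linarith
  -- the minimum
  obtain ⟨β, hβ0, hβ⟩ : ∃ β : ℝ, 0 < β ∧ ∀ b, b ≠ a₀ → β ≤ |lin (α b) ξ| := by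
    obtain ⟨b₀, -, hb₀⟩ := Finset.exists_min_image (univ : Finset A)
      (fun b => if b = a₀ then (1 : ℝ) else |lin (α b) ξ|) ⟨a₀, Finset.mem_univ _⟩
    refine ⟨if b₀ = a₀ then (1 : ℝ) else |lin (α b₀) ξ|, ?_, fun b hb => ?_⟩
    · split_ifs with h
      · norm_num
      · exact abs_pos.2 (hξne b₀ h)
    · have := hb₀ b (Finset.mem_univ b)
      simpa only [if_neg hb] using this
  obtain ⟨n, hn⟩ : ∃ n : ℕ, n = Fintype.card A := ⟨_, rfl⟩
  have hn1 : 1 ≤ n := by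
    rw [hn]; exact Fintype.card_pos_iff.2 ⟨a₀⟩
  have hnR : (1 : ℝ) ≤ n := by exact_mod_cast hn1
  have hpi := Real.pi_pos
  have hpi3 := Real.pi_gt_three
  obtain ⟨c, hc⟩ : ∃ c : ℝ, c = β / (2 * Real.pi * n) := ⟨_, rfl⟩
  have hc0 : 0 < c := by rw [hc]; positivity
  refine ⟨2 * Real.pi * ∑ i, |η i| + ∑ i, |ξ i| + 1, c, η, ?_, hc0, hη, ?_⟩
  · have h1 : 0 ≤ ∑ i, |η i| := Finset.sum_nonneg fun i _ => abs_nonneg _
    have h2 : 0 ≤ ∑ i, |ξ i| := Finset.sum_nonneg fun i _ => abs_nonneg _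
    positivity
  intro N hN φ
  have hNR : (0 : ℝ) < N := by exact_mod_cast hN
  obtain ⟨j, hj, hjk⟩ := good_int N ⌊(N : ℝ) * lin (α a₀) φ / (2 * Real.pi)⌋
  -- the correction along `η`
  obtain ⟨t, ht⟩ : ∃ t : ℝ, t = 2 * Real.pi * j / N - lin (α a₀) φ := ⟨_, rfl⟩
  have ht1 : |t| ≤ 2 * Real.pi / N := by
    have h1 := Int.floor_le ((N : ℝ) * lin (α a₀) φ / (2 * Real.pi))
    have h2 := Int.lt_floor_add_one ((N : ℝ) * lin (α a₀) φ / (2 * Real.pi))
    rw [le_div_iff₀ (by positivity)] at h1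
    rw [div_lt_iff₀ (by positivity)] at h2
    have h3 : (N : ℝ) * t = 2 * Real.pi * j - N * lin (α a₀) φ := by
      rw [ht]; field_simp
    have h4 : |(N : ℝ) * t| ≤ 2 * Real.pi := by
      rw [h3, abs_le]
      rcases hj with h | h
      · rw [h]
        constructor <;> nlinarith
      · rw [h]
        push_cast
        constructor <;> nlinarith
    rw [abs_mul, abs_of_pos hNR] at h4
    rw [le_div_iff₀ hNR]
    linarith
  obtain ⟨φ₁, hφ₁⟩ : ∃ φ₁ : Fin r → ℝ, φ₁ = fun i => φ i + t * η i := ⟨_, rfl⟩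
  have hφ₁l : lin (α a₀) φ₁ = 2 * Real.pi * j / N := by
    rw [hφ₁, lin_add (α a₀) φ (fun i => t * η i), lin_mul, hη, ht]; ring
  -- the choice of `s`
  obtain ⟨s, hs0', hs1, hs2⟩ : ∃ s : ℝ, 0 ≤ s ∧ s ≤ 1 ∧ ∀ b, b ≠ a₀ →
      c ≤ |Real.sin ((N : ℝ) * lin (α b) φ₁ / 2 + s * (lin (α b) ξ / 2))| := by
    by_contra hcon
    push Not at hcon
    let e := Fintype.equivFin A
    have hlt : ∀ a : A, ((e a).1 : ℝ) < n := by
      intro a
      have h1 := (e a).2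
      rw [hn]
      exact_mod_cast h1
    have hb : ∀ a : A, ∃ b, b ≠ a₀ ∧
        |Real.sin ((N : ℝ) * lin (α b) φ₁ / 2 + ((e a).1 : ℝ) / n * (lin (α b) ξ / 2))| < c := by
      intro a
      refine hcon (((e a).1 : ℝ) / n) (by positivity) ?_
      rw [div_le_one (by positivity)]
      exact (hlt a).le
    choose b hb1 hb2 using hb
    have hninj : ¬ Function.Injective b := by
      intro hinj
      obtain ⟨a, ha⟩ := (Finite.injective_iff_surjective.1 hinj) a₀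
      exact hb1 a ha
    rw [Function.Injective] at hninj
    push Not at hninj
    obtain ⟨a, a', hab, hne⟩ := hninj
    have h1 := hb2 a
    have h2 := hb2 a'
    rw [← hab] at h2
    obtain ⟨u, hu⟩ : ∃ u : ℝ, u = (N : ℝ) * lin (α (b a)) φ₁ / 2 := ⟨_, rfl⟩
    obtain ⟨v, hv⟩ : ∃ v : ℝ, v = lin (α (b a)) ξ / 2 := ⟨_, rfl⟩
    rw [← hu, ← hv] at h1 h2
    obtain ⟨x, hx⟩ : ∃ x : ℝ, x = ((e a).1 : ℝ) / n := ⟨_, rfl⟩
    obtain ⟨y, hy⟩ : ∃ y : ℝ, y = ((e a').1 : ℝ) / n := ⟨_, rfl⟩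
    rw [← hx] at h1
    rw [← hy] at h2
    have hx0 : 0 ≤ x := by rw [hx]; positivity
    have hy0 : 0 ≤ y := by rw [hy]; positivity
    have hx1 : x ≤ 1 := by
      rw [hx, div_le_one (by positivity)]; exact (hlt a).le
    have hy1 : y ≤ 1 := by
      rw [hy, div_le_one (by positivity)]; exact (hlt a').le
    have hxy : 1 / (n : ℝ) ≤ |x - y| := by
      rw [hx, hy, ← sub_div, abs_div, abs_of_pos (show (0 : ℝ) < n by linarith)]
      refine div_le_div_of_nonneg_right ?_ (by linarith)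
      have hne2 : (e a).1 ≠ (e a').1 := fun h => hne (e.injective (Fin.ext h))
      have hne3 : ((e a).1 : ℤ) - (e a').1 ≠ 0 := by omega
      have h4 := Int.one_le_abs hne3
      exact_mod_cast h4
    have hxy1 : |x - y| ≤ 1 := by rw [abs_le]; constructor <;> linarith
    have hvl : |v| ≤ 1 / 2 := by
      rw [hv, abs_div, abs_of_pos (by norm_num : (0:ℝ) < 2)]
      have := hξle (b a)
      linarith
    have hvg : β / 2 ≤ |v| := by
      rw [hv, abs_div, abs_of_pos (by norm_num : (0:ℝ) < 2)]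
      have := hβ (b a) (hb1 a)
      linarith
    -- the difference
    have h3 : |Real.sin ((x - y) * v)| < 2 * c := by
      have h4 : (x - y) * v = (u + x * v) - (u + y * v) := by ring
      rw [h4, Real.sin_sub]
      have h5 : |Real.sin (u + x * v) * Real.cos (u + y * v)| ≤ |Real.sin (u + x * v)| := by
        rw [abs_mul]
        exact mul_le_of_le_one_right (abs_nonneg _) (Real.abs_cos_le_one _)
      have h6 : |Real.cos (u + x * v) * Real.sin (u + y * v)| ≤ |Real.sin (u + y * v)| := by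
        rw [abs_mul]
        exact mul_le_of_le_one_left (abs_nonneg _) (Real.abs_cos_le_one _)
      have h7 := abs_sub (Real.sin (u + x * v) * Real.cos (u + y * v))
        (Real.cos (u + x * v) * Real.sin (u + y * v))
      linarith
    have h4 : |(x - y) * v| ≤ 1 / 2 := by
      rw [abs_mul]
      nlinarith [abs_nonneg (x - y), abs_nonneg v]
    have h5 : 1 / (n : ℝ) * (β / 2) ≤ |(x - y) * v| := by
      rw [abs_mul]
      exact mul_le_mul hxy hvg (by positivity) (abs_nonneg _)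
    have h6 : 2 / Real.pi * |(x - y) * v| ≤ |Real.sin ((x - y) * v)| := by
      have h7 : |Real.sin ((x - y) * v)| = Real.sin |(x - y) * v| := by
        rcases le_total 0 ((x - y) * v) with h | h
        · rw [abs_of_nonneg h, abs_of_nonneg (Real.sin_nonneg_of_nonneg_of_le_pi h ?_)]
          rw [abs_of_nonneg h] at h4
          linarith
        · rw [abs_of_nonpos h, Real.sin_neg, abs_of_nonpos]
          apply Real.sin_nonpos_of_nonpos_of_neg_pi_le h
          rw [abs_of_nonpos h] at h4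
          linarith
      rw [h7]
      exact Real.mul_le_sin (abs_nonneg _) (by linarith)
    have h8 : 2 / Real.pi * (1 / (n : ℝ) * (β / 2)) = 2 * c := by
      rw [hc]; field_simp
    have h9 : 2 / Real.pi * (1 / (n : ℝ) * (β / 2)) ≤ 2 / Real.pi * |(x - y) * v| :=
      mul_le_mul_of_nonneg_left h5 (by positivity)
    linarith
  -- the base point
  refine ⟨fun i => φ₁ i + s / N * ξ i, j, ?_, ?_, hjk, ?_⟩
  · intro i
    have h1 : φ₁ i + s / N * ξ i - φ i = t * η i + s / N * ξ i := by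
      rw [hφ₁]; ring
    rw [h1]
    refine (abs_add_le _ _).trans ?_
    rw [abs_mul, abs_mul, abs_of_nonneg (by positivity : 0 ≤ s / N)]
    have h2 : |η i| ≤ ∑ i, |η i| :=
      Finset.single_le_sum (f := fun i => |η i|) (fun b _ => abs_nonneg _) (Finset.mem_univ i)
    have h3 : |ξ i| ≤ ∑ i, |ξ i| :=
      Finset.single_le_sum (f := fun i => |ξ i|) (fun b _ => abs_nonneg _) (Finset.mem_univ i)
    have h4 : |t| * |η i| ≤ 2 * Real.pi / N * ∑ i, |η i| :=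
      mul_le_mul ht1 h2 (abs_nonneg _) (by positivity)
    have h5 : s / N * |ξ i| ≤ 1 / N * ∑ i, |ξ i| :=
      mul_le_mul (div_le_div_of_nonneg_right hs1 hNR.le) h3 (abs_nonneg _) (by positivity)
    calc _ ≤ 2 * Real.pi / N * ∑ i, |η i| + 1 / N * ∑ i, |ξ i| := add_le_add h4 h5
      _ = (2 * Real.pi * ∑ i, |η i| + ∑ i, |ξ i|) / N := by ring
      _ ≤ (2 * Real.pi * ∑ i, |η i| + ∑ i, |ξ i| + 1) / N :=
          div_le_div_of_nonneg_right (by linarith) hNR.le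
  · rw [lin_add (α a₀) φ₁ (fun i => s / N * ξ i), lin_mul, hξa, hφ₁l]
    field_simp
    ring
  · intro b hb
    have h1 := hs2 b hb
    have h2 : (N : ℝ) * lin (α b) (fun i => φ₁ i + s / N * ξ i) / 2 =
        (N : ℝ) * lin (α b) φ₁ / 2 + s * (lin (α b) ξ / 2) := by
      rw [lin_add (α b) φ₁ (fun i => s / N * ξ i), lin_mul]
      field_simp
    rw [h2]
    exact h1

end Pool.Agent.Q79.PX
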