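import Pool.Agent.Q284.PX.Stm4

/-!
# Project PX4 of helper284: lemma CHR (the characters)
-/

set_option autoImplicit false

open Finset

namespace Pool.Agent.Q79.PX

open Pool.Agent.Q284.PX (DN lin wt ch)

theorem DN_abs_le (N : ℕ) (x : ℝ) : |DN N x| ≤ N := by
  unfold DN
  refine (Finset.abs_sum_le_sum_abs _ _).trans ?_
  calc ∑ i ∈ range N, |Real.cos ((((N : ℝ) - 1) / 2 - i) * x)| ≤ ∑ i ∈ range N, (1 : ℝ) :=
        Finset.sum_le_sum fun i _ => Real.abs_cos_le_one _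
    _ = N := by simp

theorem DN_neg (N : ℕ) (x : ℝ) : DN N (-x) = DN N x := by
  unfold DN
  refine Finset.sum_congr rfl fun i _ => ?_
  rw [mul_neg, Real.cos_neg]

theorem abs_cos_sub_cos_le' (x y : ℝ) : |Real.cos x - Real.cos y| ≤ |x - y| := by
  rw [Real.cos_sub_cos, abs_mul, abs_mul, abs_neg]
  have h1 : |Real.sin ((x + y) / 2)| ≤ 1 := Real.abs_sin_le_one _
  have h2 : |Real.sin ((x - y) / 2)| ≤ |(x - y) / 2| := Real.abs_sin_le_abs
  have h3 : |(x - y) / 2| = |x - y| / 2 := by rw [abs_div, abs_of_pos (by norm_num : (0:ℝ) < 2)]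
  have h4 : |(2 : ℝ)| = 2 := abs_of_pos (by norm_num)
  rw [h4]
  have h5 := abs_nonneg (Real.sin ((x - y) / 2))
  have h6 := abs_nonneg (x - y)
  nlinarith

theorem DN_lip (N : ℕ) (x y : ℝ) : |DN N x - DN N y| ≤ (N : ℝ) ^ 2 * |x - y| := by
  unfold DN
  rw [← Finset.sum_sub_distrib]
  refine (Finset.abs_sum_le_sum_abs _ _).trans ?_
  calc ∑ i ∈ range N, |Real.cos ((((N : ℝ) - 1) / 2 - i) * x) - Real.cos ((((N : ℝ) - 1) / 2 - i) * y)|
      ≤ ∑ i ∈ range N, (N : ℝ) * |x - y| := by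
        refine Finset.sum_le_sum fun i hi => ?_
        refine (abs_cos_sub_cos_le' _ _).trans ?_
        rw [← mul_sub, abs_mul]
        refine mul_le_mul_of_nonneg_right ?_ (abs_nonneg _)
        have hi' : (i : ℝ) + 1 ≤ N := by exact_mod_cast Finset.mem_range.1 hi
        have hi0 : (0 : ℝ) ≤ i := Nat.cast_nonneg _
        rw [abs_le]
        constructor <;> linarith
    _ = (N : ℝ) ^ 2 * |x - y| := by
        rw [Finset.sum_const, Finset.card_range, nsmul_eq_mul]; ring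

theorem DN_sin (N : ℕ) (x : ℝ) : Real.sin (x / 2) * DN N x = Real.sin (N * x / 2) := by
  unfold DN
  have key : ∀ n : ℕ, ∑ i ∈ range n, 2 * (Real.sin (x / 2) * Real.cos ((((N : ℝ) - 1) / 2 - i) * x)) =
      Real.sin (N * x / 2) - Real.sin (((N : ℝ) / 2 - n) * x) := by
    intro n
    induction n with
    | zero =>
      have : ((N : ℝ) / 2 - ((0 : ℕ) : ℝ)) * x = N * x / 2 := by push_cast; ring
      rw [this]; simp
    | succ n ih =>
      rw [Finset.sum_range_succ, ih]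
      have h1 : Real.sin (((N : ℝ) / 2 - n) * x) = Real.sin ((((N : ℝ) - 1) / 2 - n) * x + x / 2) := by
        congr 1; ring
      have h2 : Real.sin (((N : ℝ) / 2 - ((n + 1 : ℕ) : ℝ)) * x) =
          Real.sin ((((N : ℝ) - 1) / 2 - n) * x - x / 2) := by
        congr 1; push_cast; ring
      rw [h1, h2, Real.sin_add, Real.sin_sub]
      ring
  have h := key N
  have h3 : Real.sin (((N : ℝ) / 2 - N) * x) = - Real.sin (N * x / 2) := by
    rw [← Real.sin_neg]; congr 1; ring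
  rw [h3, ← Finset.mul_sum, ← Finset.mul_sum] at h
  linarith

theorem DN_exp (N : ℕ) (y : ℝ) :
    ∑ j : Fin N, Complex.exp ((((((N : ℝ) - 1) / 2 - (j.1 : ℝ)) * y : ℝ) : ℂ) * Complex.I) = (DN N y : ℂ) := by
  rw [Fin.sum_univ_eq_sum_range
    (fun j : ℕ => Complex.exp ((((((N : ℝ) - 1) / 2 - (j : ℝ)) * y : ℝ) : ℂ) * Complex.I)) N]
  have hre : ∀ t : ℝ, Complex.exp ((t : ℂ) * Complex.I) = (Real.cos t : ℂ) + (Real.sin t : ℂ) * Complex.I := by
    intro t
    rw [Complex.exp_mul_I, Complex.ofReal_cos, Complex.ofReal_sin]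
  simp only [hre]
  rw [Finset.sum_add_distrib, ← Finset.sum_mul, ← Complex.ofReal_sum, ← Complex.ofReal_sum]
  have hs : ∑ i ∈ range N, Real.sin ((((N : ℝ) - 1) / 2 - i) * y) = 0 := by
    have h1 := Finset.sum_range_reflect (fun i : ℕ => Real.sin ((((N : ℝ) - 1) / 2 - i) * y)) N
    have h2 : ∑ j ∈ range N, Real.sin ((((N : ℝ) - 1) / 2 - ((N - 1 - j : ℕ) : ℝ)) * y) =
        - ∑ i ∈ range N, Real.sin ((((N : ℝ) - 1) / 2 - i) * y) := by
      rw [← Finset.sum_neg_distrib]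
      refine Finset.sum_congr rfl fun i hi => ?_
      have hi' : i + 1 ≤ N := Finset.mem_range.1 hi
      rw [← Real.sin_neg]
      congr 1
      have : ((N - 1 - i : ℕ) : ℝ) = (N : ℝ) - 1 - i := by
        have : N - 1 - i + (1 + i) = N := by omega
        have h3 : ((N - 1 - i + (1 + i) : ℕ) : ℝ) = (N : ℝ) := by rw [this]
        push_cast at h3
        linarith
      rw [this]; ring
    rw [h2] at h1
    linarith
  rw [hs]
  simp [DN]

theorem lin_smul {r : ℕ} (c φ : Fin r → ℝ) (k : ℝ) : lin c (fun i => k * φ i) = k * lin c φ := by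
  unfold lin
  rw [Finset.mul_sum]
  exact Finset.sum_congr rfl fun i _ => by ring

theorem ch_exp (A : Type) [Fintype A] [DecidableEq A] (r N : ℕ) (α : A → Fin r → ℝ) (φ : Fin r → ℝ) (k : ℕ) :
    ∑ x : A → Fin N, Complex.exp ((wt α N x φ : ℂ) * Complex.I) ^ k =
      (ch α N (fun i => (k : ℝ) * φ i) : ℂ) := by
  have h1 : ∀ x : A → Fin N, Complex.exp ((wt α N x φ : ℂ) * Complex.I) ^ k =
      ∏ a, Complex.exp ((((((N : ℝ) - 1) / 2 - ((x a).1 : ℝ)) * ((k : ℝ) * lin (α a) φ) : ℝ) : ℂ) * Complex.I) := by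
    intro x
    rw [← Complex.exp_nat_mul, ← Complex.exp_sum]
    congr 1
    unfold wt
    push_cast
    rw [Finset.sum_mul, Finset.mul_sum]
    refine Finset.sum_congr rfl fun a _ => ?_
    ring
  simp only [h1]
  rw [← Fintype.piFinset_univ,
    ← Finset.prod_univ_sum (fun _ : A => (Finset.univ : Finset (Fin N)))
      (fun a j => Complex.exp ((((((N : ℝ) - 1) / 2 - (j.1 : ℝ)) * ((k : ℝ) * lin (α a) φ) : ℝ) : ℂ) * Complex.I))]
  unfold ch
  rw [Complex.ofReal_prod]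
  refine Finset.prod_congr rfl fun a _ => ?_
  rw [DN_exp, lin_smul]

theorem t_CHR : Pool.Agent.Q284.PX.S_CHR :=
  ⟨fun N x => ⟨DN_abs_le N x, DN_neg N x⟩, DN_lip, DN_sin, fun A _ _ r N α φ k => ch_exp A r N α φ k⟩

end Pool.Agent.Q79.PX
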