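import Pool.Agent.Q284.PX.Stm4
import Pool.Agent.Q237.PX.LR2

/-!
# Project PX4 of helper284: lemma G4 (the local factor at the special prime)
-/

set_option autoImplicit false

open Finset

namespace Pool.Agent.Q79.PX

theorem t_G4 : Pool.Agent.Q284.PX.S_G4 := by
  intro M hM
  refine ⟨2 * M * (M + 1), ?_⟩
  intro q θ m hq hm hθ0 hθ1
  have hq0 : 0 < q := by linarith
  have hq1 : 1 ≤ q := by linarith
  have hMr : (2 : ℝ) ≤ M := by exact_mod_cast hM
  have hMp : (0 : ℝ) < M := by linarith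
  have hm0 : (0 : ℝ) ≤ m := Nat.cast_nonneg _
  have hθm : 0 ≤ θ * m := mul_nonneg hθ0 hm0
  have hM1 : ((M - 1 : ℕ) : ℝ) = (M : ℝ) - 1 := by
    rw [Nat.cast_sub (by omega)]; norm_num
  obtain ⟨Γ, hΓ⟩ : ∃ Γ : ℝ, Γ = (q ^ (θ * m)) ^ (M - 1) := ⟨_, rfl⟩
  have hΓ2 : Γ = q ^ (θ * m * ((M : ℝ) - 1)) := by
    rw [hΓ, ← Real.rpow_natCast, ← Real.rpow_mul hq0.le, hM1]
  have hΓ0 : 0 < Γ := by rw [hΓ2]; positivity
  obtain ⟨c, hc0, hc, hw⟩ := Pool.Agent.Q237.PX.geo_prod (univ : Finset (Fin M))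
    (fun i => q ^ (θ * m * ((M : ℝ) - 1 - 2 * (i.1 : ℝ)))) Γ hΓ0.le
    (fun i _ => by positivity)
    (fun i _ => by
      rw [hΓ2]
      refine Real.rpow_le_rpow_of_exponent_le hq1 (mul_le_mul_of_nonneg_left ?_ hθm)
      have : (0 : ℝ) ≤ (i.1 : ℝ) := Nat.cast_nonneg _
      linarith)
  rw [card_univ, Fintype.card_fin] at hc
  rw [← hΓ]
  refine ⟨c, hc0, ?_, fun w h => (hw w h).2⟩
  intro k
  rw [abs_of_nonneg (hc k).1]
  rcases Nat.eq_zero_or_pos k with rfl | hk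
  · rw [hc0]
    simp
  · refine (hc k).2.trans ?_
    have hkr : (1 : ℝ) ≤ k := by exact_mod_cast hk
    have hmr : 2 * (M : ℝ) * ((M : ℝ) + 1) ≤ m := by exact_mod_cast hm
    have e1 : (2 : ℝ) ^ (k + M) ≤ q ^ (1 / (2 * (M : ℝ)) * (k * m)) := by
      calc (2 : ℝ) ^ (k + M) ≤ (2 : ℝ) ^ (k * (M + 1)) := by
            apply pow_le_pow_right₀ (by norm_num)
            nlinarith
        _ ≤ q ^ (k * (M + 1)) := by
            apply pow_le_pow_left₀ (by norm_num)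
            linarith
        _ = q ^ (((k * (M + 1) : ℕ)) : ℝ) := (Real.rpow_natCast _ _).symm
        _ ≤ q ^ (1 / (2 * (M : ℝ)) * (k * m)) := by
            apply Real.rpow_le_rpow_of_exponent_le hq1
            rw [one_div, inv_mul_eq_div, le_div_iff₀ (by positivity)]
            push_cast
            calc (k : ℝ) * ((M : ℝ) + 1) * (2 * (M : ℝ)) = k * (2 * (M : ℝ) * ((M : ℝ) + 1)) := by ring
              _ ≤ (k : ℝ) * (m : ℝ) := by gcongr
    have e2 : Γ ^ k ≤ q ^ ((1 - 6 / (M : ℝ)) * (k * m)) := by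
      rw [hΓ2, ← Real.rpow_natCast, ← Real.rpow_mul hq0.le]
      apply Real.rpow_le_rpow_of_exponent_le hq1
      calc θ * (m : ℝ) * ((M : ℝ) - 1) * k = (((M : ℝ) - 1) * θ) * (k * m) := by ring
        _ ≤ (1 - 6 / (M : ℝ)) * (k * m) := by gcongr
    calc (2 : ℝ) ^ (k + M) * Γ ^ k ≤
          q ^ (1 / (2 * (M : ℝ)) * (k * m)) * q ^ ((1 - 6 / (M : ℝ)) * (k * m)) :=
          mul_le_mul e1 e2 (by positivity) (by positivity)
      _ = q ^ ((1 - 11 / (2 * (M : ℝ))) * ((k : ℝ) * m)) := by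
          rw [← Real.rpow_add hq0]
          congr 1
          field_simp
          ring

end Pool.Agent.Q79.PX
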