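import Pool.Agent.Q79.PX.NG4

/-!
# Project PX4 of helper284: lemma NE4 (mean squares with the special prime, numerical), after
`Pool/Agent/Q277/PX/EBb.lean`
-/

set_option autoImplicit false

open Finset

namespace Pool.Agent.Q79.PX

open Pool.Agent.Q284.PS (BB)
open Pool.Agent.Q284.PX (w2)
open Pool.Agent.Q277.PX (key geo w2_nonneg w2_shift w2_zero)

theorem t_NE4 : Pool.Agent.Q284.PX.S_NE4 := by
  intro d hd1
  have hdp : (0 : ℝ) < d := by exact_mod_cast hd1
  obtain ⟨m₀, hm₀, hkey⟩ := key d hd1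
  refine ⟨m₀, fun q m hq hmm W Y n hn hWn hWz hWb hYn hYA hYB hY0 => ?_⟩
  have hqp : 0 < q := by linarith
  have hB : 0 < BB := by
    unfold BB
    norm_num
  have hw := w2_nonneg hqp d n
  have hnp : (0 : ℝ) < n := by exact_mod_cast hn
  have hterm : ∀ k : ℕ, 1 ≤ k → k * m ≤ n → W (k * m) * Y (n - k * m) ≤
      (BB * w2 q d n) * (1 / 200 * (1 / 2 : ℝ) ^ k) := by
    intro k hk1 hk2
    have hb := hWb (k * m)
    have hW0 := hWn (k * m)
    obtain ⟨u, hu⟩ : ∃ u : ℕ, u = k * m := ⟨_, rfl⟩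
    rw [← hu] at hk2 hb hW0
    simp only [← hu]
    have hk3 := hkey q hq m k hmm hk1 u (by rw [hu])
    have hk4 := hkey q hq m k hmm hk1 n (by rw [← hu]; exact hk2)
    have hup : (0 : ℝ) ≤ u := Nat.cast_nonneg _
    have hhk : (0 : ℝ) < (1 / 2 : ℝ) ^ k := by positivity
    rcases Nat.eq_zero_or_pos (n - u) with h0 | h0
    · -- case (C)
      have hun : u = n := by omega
      rw [h0]
      rw [hun] at hb hW0 ⊢
      have h2 : W n * Y 0 ≤
          q ^ ((1 - 11 / (2 * (d : ℝ))) * (n : ℝ)) * (2 * q ^ ((20 : ℝ) * n / (9 * d))) :=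
        mul_le_mul hb hY0 (hYn 0) (by positivity)
      rw [w2_zero hqp hd1 hn] at h2
      have h3 : (n : ℝ) ^ ((5 : ℝ) / 2) ≤ (1 + (n : ℝ)) ^ ((5 : ℝ) / 2) :=
        Real.rpow_le_rpow hnp.le (by linarith) (by norm_num)
      have h4 : q ^ (-(3 * (n : ℝ) / d)) * q ^ ((20 : ℝ) * n / (9 * d)) ≤ q ^ (-((n : ℝ) / (36 * d))) := by
        rw [← Real.rpow_add hqp]
        refine Real.rpow_le_rpow_of_exponent_le (by linarith) ?_
        have h5 : -(3 * (n : ℝ) / d) + (20 : ℝ) * n / (9 * d) = -(28 * (n : ℝ) / (36 * d)) := by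
          field_simp
          ring
        rw [h5, neg_le_neg_iff]
        exact div_le_div_of_nonneg_right (by linarith) (by positivity)
      have h6 : (n : ℝ) ^ ((5 : ℝ) / 2) * (q ^ (-(3 * (n : ℝ) / d)) * q ^ ((20 : ℝ) * n / (9 * d))) ≤
          1 / 10 ^ 8 * (1 / 2 : ℝ) ^ k := by
        have h7 : (n : ℝ) ^ ((5 : ℝ) / 2) * (q ^ (-(3 * (n : ℝ) / d)) * q ^ ((20 : ℝ) * n / (9 * d))) ≤
            (1 + (n : ℝ)) ^ ((5 : ℝ) / 2) * q ^ (-((n : ℝ) / (36 * d))) :=
          mul_le_mul h3 h4 (by positivity) (by positivity)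
        nlinarith
      calc _ ≤ _ := h2
        _ = w2 q d n * (2 * ((n : ℝ) ^ ((5 : ℝ) / 2) *
            (q ^ (-(3 * (n : ℝ) / d)) * q ^ ((20 : ℝ) * n / (9 * d))))) := by ring
        _ ≤ w2 q d n * (2 * (1 / 10 ^ 8 * (1 / 2 : ℝ) ^ k)) :=
            mul_le_mul_of_nonneg_left (by linarith) hw
        _ ≤ w2 q d n * (BB * (1 / 200 * (1 / 2 : ℝ) ^ k)) := by
            refine mul_le_mul_of_nonneg_left ?_ hw
            unfold BB
            linarith
        _ = _ := by ring
    · obtain ⟨i, hi⟩ : ∃ i : ℕ, i = n - u := ⟨_, rfl⟩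
      have hin : n = i + u := by omega
      rw [← hi] at h0 ⊢
      have hip : (0 : ℝ) < i := by exact_mod_cast h0
      have hip1 : (1 : ℝ) ≤ i := by exact_mod_cast h0
      have hwi := w2_nonneg hqp d i
      have h2 := w2_shift (d := d) (u := u) hqp hd1 (show 1 ≤ i from h0)
      rw [← hin] at h2
      have h7 : 0 ≤ BB * w2 q d n := by positivity
      have h8 : 0 ≤ BB * w2 q d n * (1 / 2 : ℝ) ^ k := by positivity
      by_cases h4i : n ≤ 4 * i
      · -- case (A)
        have e3 := hYA i h0 (by omega) h4i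
        have h1 : W u * Y i ≤
            q ^ ((1 - 11 / (2 * (d : ℝ))) * (u : ℝ)) * (2 * BB * w2 q d i) :=
          mul_le_mul hb e3 (hYn i) (by positivity)
        have h36 : q ^ (-(3 * (u : ℝ) / d)) ≤ q ^ (-((u : ℝ) / (36 * d))) := by
          refine Real.rpow_le_rpow_of_exponent_le (by linarith) ?_
          rw [neg_le_neg_iff, div_le_div_iff₀ (by positivity) hdp]
          nlinarith [mul_nonneg hup hdp.le]
        have h3 : (((i + u : ℕ) : ℝ) / i) ^ ((5 : ℝ) / 2) ≤ (1 + (u : ℝ)) ^ ((5 : ℝ) / 2) := by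
          refine Real.rpow_le_rpow (by positivity) ?_ (by norm_num)
          rw [div_le_iff₀ hip]
          push_cast
          nlinarith
        have h4 : q ^ (-(3 * (u : ℝ) / d)) * (((n : ℕ) : ℝ) / i) ^ ((5 : ℝ) / 2) ≤
            1 / 10 ^ 8 * (1 / 2 : ℝ) ^ k := by
          rw [← hin] at h3
          have h5 : q ^ (-(3 * (u : ℝ) / d)) * (((n : ℕ) : ℝ) / i) ^ ((5 : ℝ) / 2) ≤
              q ^ (-((u : ℝ) / (36 * d))) * (1 + (u : ℝ)) ^ ((5 : ℝ) / 2) :=
            mul_le_mul h36 h3 (by positivity) (by positivity)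
          nlinarith
        calc _ ≤ _ := h1
          _ = 2 * BB * (q ^ ((1 - 11 / (2 * (d : ℝ))) * (u : ℝ)) * w2 q d i) := by ring
          _ = 2 * BB * w2 q d n * (q ^ (-(3 * (u : ℝ) / d)) * ((n : ℝ) / i) ^ ((5 : ℝ) / 2)) := by
              rw [h2]
              ring
          _ ≤ 2 * BB * w2 q d n * (1 / 10 ^ 8 * (1 / 2 : ℝ) ^ k) :=
              mul_le_mul_of_nonneg_left h4 (by positivity)
          _ ≤ _ := by nlinarith
      · -- case (B)
        push Not at h4i
        have e4 : Y i ≤ 2 * q ^ ((20 : ℝ) * n / (9 * d)) * (5 / 2 * BB * w2 q d i) := by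
          refine (hYB i h0 (by omega)).trans (le_of_eq ?_)
          ring
        have h1 : W u * Y i ≤
            q ^ ((1 - 11 / (2 * (d : ℝ))) * (u : ℝ)) *
              (2 * q ^ ((20 : ℝ) * n / (9 * d)) * (5 / 2 * BB * w2 q d i)) :=
          mul_le_mul hb e4 (hYn i) (by positivity)
        have h3 : ((n : ℝ) / i) ^ ((5 : ℝ) / 2) ≤ (1 + (n : ℝ)) ^ ((5 : ℝ) / 2) := by
          refine Real.rpow_le_rpow (by positivity) ?_ (by norm_num)
          rw [div_le_iff₀ hip]
          nlinarith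
        have h4 : q ^ (-(3 * (u : ℝ) / d)) * q ^ ((20 : ℝ) * n / (9 * d)) ≤
            q ^ (-((n : ℝ) / (36 * d))) := by
          rw [← Real.rpow_add hqp]
          refine Real.rpow_le_rpow_of_exponent_le (by linarith) ?_
          have hu4 : 3 * (n : ℝ) ≤ 4 * u := by
            have : 3 * n ≤ 4 * u := by omega
            exact_mod_cast this
          have h5 : -(3 * (u : ℝ) / d) + (20 : ℝ) * n / (9 * d) = -((108 * (u : ℝ) - 80 * n) / (36 * d)) := by
            field_simp
            ring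
          rw [h5, neg_le_neg_iff]
          exact div_le_div_of_nonneg_right (by linarith) (by positivity)
        have h6 : (q ^ (-(3 * (u : ℝ) / d)) * q ^ ((20 : ℝ) * n / (9 * d))) * ((n : ℝ) / i) ^ ((5 : ℝ) / 2) ≤
            1 / 10 ^ 8 * (1 / 2 : ℝ) ^ k := by
          have h7 : (q ^ (-(3 * (u : ℝ) / d)) * q ^ ((20 : ℝ) * n / (9 * d))) * ((n : ℝ) / i) ^ ((5 : ℝ) / 2) ≤
              q ^ (-((n : ℝ) / (36 * d))) * (1 + (n : ℝ)) ^ ((5 : ℝ) / 2) :=
            mul_le_mul h4 h3 (by positivity) (by positivity)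
          nlinarith
        calc _ ≤ _ := h1
          _ = 5 * BB * (q ^ ((1 - 11 / (2 * (d : ℝ))) * (u : ℝ)) * w2 q d i) * q ^ ((20 : ℝ) * n / (9 * d)) := by
              ring
          _ = 5 * BB * w2 q d n * ((q ^ (-(3 * (u : ℝ) / d)) * q ^ ((20 : ℝ) * n / (9 * d))) *
                ((n : ℝ) / i) ^ ((5 : ℝ) / 2)) := by
              rw [h2]
              ring
          _ ≤ 5 * BB * w2 q d n * (1 / 10 ^ 8 * (1 / 2 : ℝ) ^ k) :=
              mul_le_mul_of_nonneg_left h6 (by positivity)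
          _ ≤ _ := by nlinarith
  have h1 := geo_dvd m n (by omega) (fun u => if u = 0 then 0 else W u * Y (n - u)) (BB * w2 q d n) (1 / 200)
    (1 / 200) (by positivity) (by norm_num) (le_refl _)
    (by
      rw [if_pos rfl]
      positivity)
    (by
      intro u hu1 hu
      rw [if_neg (by omega), hWz u hu, zero_mul])
    (by
      intro k hk1 hk2
      rw [if_neg (by
        have : 0 < k * m := Nat.mul_pos hk1 (by omega)
        omega)]
      exact hterm k hk1 hk2)
  have h2 : ∑ u ∈ Icc 1 n, W u * Y (n - u) =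
      ∑ u ∈ range (n + 1), (if u = 0 then 0 else W u * Y (n - u)) := by
    rw [← Finset.sum_filter_add_sum_filter_not (range (n + 1)) (fun u => u = 0)
      (fun u => if u = 0 then 0 else W u * Y (n - u))]
    rw [Finset.sum_eq_zero (s := (range (n + 1)).filter (fun u => u = 0)) (fun u hu => by
      rw [if_pos (Finset.mem_filter.1 hu).2]), zero_add]
    have hset : (range (n + 1)).filter (fun u => ¬ u = 0) = Icc 1 n := by
      ext u
      rw [Finset.mem_filter, Finset.mem_range, Finset.mem_Icc]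
      omega
    rw [hset]
    refine Finset.sum_congr rfl fun u hu => ?_
    rw [Finset.mem_Icc] at hu
    rw [if_neg (by omega)]
  rw [h2]
  have h7 : 0 ≤ BB * w2 q d n := by positivity
  linarith

end Pool.Agent.Q79.PX
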