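import Pool.Agent.Q284.PX.Stm4
import Pool.Agent.Q277.PX.GBb

/-!
# Project PX4 of helper284: lemma NG4 (mass with the special prime, numerical), after `Pool/Agent/Q277/PX/GBb.lean`
-/

set_option autoImplicit false

open Finset

namespace Pool.Agent.Q79.PX

open Pool.Agent.Q284.PS (BB)
open Pool.Agent.Q284.PX (w2)
open Pool.Agent.Q277.PX (key geo w2_nonneg w2_shift w2_zero)

/-- the sum over the multiples of the degree of the special prime -/
theorem geo_dvd (m n : ℕ) (hm : 1 ≤ m) (T : ℕ → ℝ) (A c₀ c : ℝ) (hA : 0 ≤ A) (hc : 0 ≤ c) (hc₀ : c ≤ c₀)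
    (h0 : T 0 ≤ A * c₀) (hz : ∀ u : ℕ, 1 ≤ u → ¬ m ∣ u → T u = 0)
    (hT : ∀ k : ℕ, 1 ≤ k → k * m ≤ n → T (k * m) ≤ A * (c * (1 / 2 : ℝ) ^ k)) :
    ∑ u ∈ range (n + 1), T u ≤ A * (c₀ + c) := by
  have h1 : ∑ u ∈ range (n + 1), T u = ∑ k ∈ (range (n + 1)).filter (fun k => k * m ≤ n), T (k * m) := by
    have hinj : Set.InjOn (fun k : ℕ => k * m) ((range (n + 1)).filter (fun k => k * m ≤ n)) := by
      intro a _ b _ hab
      exact Nat.eq_of_mul_eq_mul_right hm hab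
    rw [← Finset.sum_image (f := T) hinj]
    symm
    refine Finset.sum_subset ?_ ?_
    · intro u hu
      rw [Finset.mem_image] at hu
      obtain ⟨k, hk, rfl⟩ := hu
      rw [Finset.mem_filter] at hk
      exact Finset.mem_range.2 (by omega)
    · intro u hu hu2
      rw [Finset.mem_range] at hu
      have hu0 : 1 ≤ u := by
        by_contra h
        have hu' : u = 0 := by omega
        apply hu2
        rw [Finset.mem_image]
        exact ⟨0, Finset.mem_filter.2 ⟨Finset.mem_range.2 (by omega), by simp⟩, by simp [hu']⟩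
      refine hz u hu0 fun hdvd => hu2 ?_
      obtain ⟨k, hk⟩ := hdvd
      rw [Finset.mem_image]
      refine ⟨k, Finset.mem_filter.2 ⟨Finset.mem_range.2 ?_, ?_⟩, by rw [hk]; ring⟩
      · have : k ≤ m * k := Nat.le_mul_of_pos_left k hm
        omega
      · have : k * m = u := by rw [hk]; ring
        omega
  rw [h1]
  refine geo _ n (filter_subset _ _) (fun k => T (k * m)) A c₀ c hA hc hc₀ (by simpa using h0) ?_
  intro k hk hk1
  exact hT k hk1 (Finset.mem_filter.1 hk).2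

theorem t_NG4 : Pool.Agent.Q284.PX.S_NG4 := by
  intro d hd1
  have hdp : (0 : ℝ) < d := by exact_mod_cast hd1
  obtain ⟨m₀, hm₀, hkey⟩ := key d hd1
  refine ⟨m₀, fun q m hq hmm W G n hn hW0 hWn hWz hWb hG0 hG => ?_⟩
  have hqp : 0 < q := by linarith
  have hB : 0 < BB := by
    unfold BB
    norm_num
  have hw := w2_nonneg hqp d n
  have hnp : (0 : ℝ) < n := by exact_mod_cast hn
  have hmain := geo_dvd m n (by omega) (fun u => W u * G (n - u)) (BB * w2 q d n) (5 / 2) (1 / 10)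
    (by positivity) (by norm_num) (by norm_num) ?_ ?_ ?_
  · calc _ ≤ BB * w2 q d n * (5 / 2 + 1 / 10) := hmain
      _ ≤ 3 * BB * w2 q d n := by nlinarith [mul_nonneg hB.le hw]
  · simp only [Nat.sub_zero]
    rw [hW0, one_mul]
    have := (hG n hn le_rfl).2
    linarith
  · intro u _ hu
    simp only [hWz u hu, zero_mul]
  · intro k hk1 hk2
    have hb := hWb (k * m)
    obtain ⟨u, hu⟩ : ∃ u : ℕ, u = k * m := ⟨_, rfl⟩
    rw [← hu] at hk2 hb
    simp only [← hu]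
    have hk3 := hkey q hq m k hmm hk1 u (by rw [hu])
    have hup : (0 : ℝ) ≤ u := Nat.cast_nonneg _
    have h36 : q ^ (-(3 * (u : ℝ) / d)) ≤ q ^ (-((u : ℝ) / (36 * d))) := by
      refine Real.rpow_le_rpow_of_exponent_le (by linarith) ?_
      rw [neg_le_neg_iff, div_le_div_iff₀ (by positivity) hdp]
      nlinarith [mul_nonneg hup hdp.le]
    have hX : 0 ≤ (1 + (u : ℝ)) ^ ((5 : ℝ) / 2) := by positivity
    have hY : 10 ^ 8 * (1 + (u : ℝ)) ^ ((5 : ℝ) / 2) * q ^ (-(3 * (u : ℝ) / d)) ≤ (1 / 2 : ℝ) ^ k :=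
      (mul_le_mul_of_nonneg_left h36 (by positivity)).trans hk3
    rcases Nat.eq_zero_or_pos (n - u) with h0 | h0
    · have hun : u = n := by omega
      rw [h0, hG0, mul_one]
      refine hb.trans ?_
      rw [hun] at hY ⊢
      rw [w2_zero hqp hd1 hn]
      have h1 : (n : ℝ) ^ ((5 : ℝ) / 2) ≤ (1 + (n : ℝ)) ^ ((5 : ℝ) / 2) :=
        Real.rpow_le_rpow hnp.le (by linarith) (by norm_num)
      have h2 : q ^ (-(3 * (n : ℝ) / d)) * (n : ℝ) ^ ((5 : ℝ) / 2) ≤ BB * (1 / 10 * (1 / 2 : ℝ) ^ k) := by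
        have h3 : q ^ (-(3 * (n : ℝ) / d)) * (n : ℝ) ^ ((5 : ℝ) / 2) ≤
            q ^ (-(3 * (n : ℝ) / d)) * (1 + (n : ℝ)) ^ ((5 : ℝ) / 2) :=
          mul_le_mul_of_nonneg_left h1 (by positivity)
        have h4 : (0 : ℝ) < (1 / 2 : ℝ) ^ k := by positivity
        unfold BB
        nlinarith
      calc w2 q d n * q ^ (-(3 * (n : ℝ) / d)) * (n : ℝ) ^ ((5 : ℝ) / 2)
          = w2 q d n * (q ^ (-(3 * (n : ℝ) / d)) * (n : ℝ) ^ ((5 : ℝ) / 2)) := by ring
        _ ≤ w2 q d n * (BB * (1 / 10 * (1 / 2 : ℝ) ^ k)) := mul_le_mul_of_nonneg_left h2 hw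
        _ = _ := by ring
    · obtain ⟨i, hi⟩ : ∃ i : ℕ, i = n - u := ⟨_, rfl⟩
      have hin : n = i + u := by omega
      rw [← hi] at h0 ⊢
      obtain ⟨hT0, hT1⟩ := hG i h0 (by omega)
      have hip : (0 : ℝ) < i := by exact_mod_cast h0
      have hip1 : (1 : ℝ) ≤ i := by exact_mod_cast h0
      have h1 : W u * G i ≤
          q ^ ((1 - 11 / (2 * (d : ℝ))) * (u : ℝ)) * (5 / 2 * BB * w2 q d i) :=
        mul_le_mul hb hT1 hT0 (by positivity)
      have h2 := w2_shift (d := d) (u := u) hqp hd1 (show 1 ≤ i from h0)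
      have h3 : (((i + u : ℕ) : ℝ) / i) ^ ((5 : ℝ) / 2) ≤ (1 + (u : ℝ)) ^ ((5 : ℝ) / 2) := by
        refine Real.rpow_le_rpow (by positivity) ?_ (by norm_num)
        rw [div_le_iff₀ hip]
        push_cast
        nlinarith
      rw [← hin] at h2
      have h4 : q ^ (-(3 * (u : ℝ) / d)) * (((n : ℕ) : ℝ) / i) ^ ((5 : ℝ) / 2) ≤
          1 / 10 ^ 8 * (1 / 2 : ℝ) ^ k := by
        rw [← hin] at h3
        have h5 : q ^ (-(3 * (u : ℝ) / d)) * (((n : ℕ) : ℝ) / i) ^ ((5 : ℝ) / 2) ≤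
          q ^ (-(3 * (u : ℝ) / d)) * (1 + (u : ℝ)) ^ ((5 : ℝ) / 2) :=
          mul_le_mul_of_nonneg_left h3 (by positivity)
        nlinarith
      calc _ ≤ _ := h1
        _ = 5 / 2 * BB * (q ^ ((1 - 11 / (2 * (d : ℝ))) * (u : ℝ)) * w2 q d i) := by ring
        _ = 5 / 2 * BB * w2 q d n * (q ^ (-(3 * (u : ℝ) / d)) * ((n : ℝ) / i) ^ ((5 : ℝ) / 2)) := by
            rw [h2]
            ring
        _ ≤ 5 / 2 * BB * w2 q d n * (1 / 10 ^ 8 * (1 / 2 : ℝ) ^ k) :=
            mul_le_mul_of_nonneg_left h4 (by positivity)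
        _ ≤ _ := by
            have h6 : (0 : ℝ) < (1 / 2 : ℝ) ^ k := by positivity
            have h7 : 0 ≤ BB * w2 q d n := by positivity
            have h8 : 0 ≤ BB * w2 q d n * (1 / 2 : ℝ) ^ k := by positivity
            nlinarith

end Pool.Agent.Q79.PX
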