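import Pool.Agent.Q284.PX.Stm4

/-!
# Project PX4 of helper284: lemma PSB (bounds for the coefficients)
-/

set_option autoImplicit false

open Finset

namespace Pool.Agent.Q79.PX

/-- the number `t₀ = 197/200` is at least `3^(-1/64)` -/
theorem rho_ge : (200 / 197 : ℝ) ≤ (3 : ℝ) ^ ((1 : ℝ) / 64) := by
  have h1 : ((200 / 197 : ℝ)) ^ (64 : ℕ) ≤ 3 := by norm_num
  have h2 : (200 / 197 : ℝ) = ((200 / 197 : ℝ) ^ (64 : ℕ)) ^ ((1 : ℝ) / 64) := by
    rw [← Real.rpow_natCast, ← Real.rpow_mul (by norm_num)]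
    norm_num
  rw [h2]
  exact Real.rpow_le_rpow (by positivity) h1 (by norm_num)

theorem rho_pow (k i : ℕ) (h : i ≤ k) :
    (3 : ℝ) ^ (((k - i : ℕ) : ℝ) / 64) ≤ (3 : ℝ) ^ ((k : ℝ) / 64) * (197 / 200 : ℝ) ^ i := by
  have e1 : ((k - i : ℕ) : ℝ) / 64 = (k : ℝ) / 64 - (i : ℝ) / 64 := by
    rw [Nat.cast_sub h]; ring
  rw [e1, Real.rpow_sub (by norm_num : (0:ℝ) < 3), div_eq_mul_inv]
  refine mul_le_mul_of_nonneg_left ?_ (by positivity)
  have e2 : (3 : ℝ) ^ ((i : ℝ) / 64) = ((3 : ℝ) ^ ((1 : ℝ) / 64)) ^ i := by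
    rw [← Real.rpow_natCast, ← Real.rpow_mul (by norm_num)]
    congr 1; ring
  rw [e2, ← inv_pow]
  refine pow_le_pow_left₀ (by positivity) ?_ i
  have := inv_anti₀ (by norm_num) rho_ge
  refine this.trans (by norm_num)

theorem sum_nat_mul_geo (k : ℕ) : ∑ i ∈ Icc 1 k, (i : ℝ) * (197 / 200 : ℝ) ^ i ≤ 4378 := by
  have h := hasSum_coe_mul_geometric_of_norm_lt_one (𝕜 := ℝ) (r := 197 / 200)
    (by rw [Real.norm_eq_abs, abs_of_pos (by norm_num)]; norm_num)
  have h2 := sum_le_hasSum (Icc 1 k) (fun i _ => by positivity) h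
  refine h2.trans (by norm_num)

theorem sum_geo (k M : ℕ) : ∑ i ∈ Icc 1 k, (if M ≤ i then (197 / 200 : ℝ) ^ i else 0) ≤
    (197 / 200 : ℝ) ^ M * (200 / 3) := by
  rw [← Finset.sum_filter]
  have h1 : ∑ i ∈ (Icc 1 k).filter (fun i => M ≤ i), (197 / 200 : ℝ) ^ i ≤
      ∑ i ∈ Ico M (k + 1), (197 / 200 : ℝ) ^ i := by
    refine Finset.sum_le_sum_of_subset_of_nonneg ?_ (fun i _ _ => by positivity)
    intro i hi
    rw [Finset.mem_filter, Finset.mem_Icc] at hi
    rw [Finset.mem_Ico]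
    omega
  refine h1.trans ?_
  have h2 := geom_sum_Ico_le_of_lt_one (m := M) (n := k + 1) (x := (197 / 200 : ℝ)) (by norm_num) (by norm_num)
  refine h2.trans (le_of_eq ?_)
  norm_num
  ring

theorem small_pow {d M : ℕ} (hd : 20000 ≤ d) (hM : 100 * Real.log d ≤ M) :
    (d : ℝ) * ((197 / 200 : ℝ) ^ M * (200 / 3)) ≤ 1 / 2 := by
  have hd' : (20000 : ℝ) ≤ d := by exact_mod_cast hd
  have hdp : (0 : ℝ) < d := by linarith
  have h1 : (197 / 200 : ℝ) ≤ Real.exp (-(3 / 200)) := by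
    have := Real.add_one_le_exp (-(3 / 200 : ℝ))
    linarith
  have h2 : (197 / 200 : ℝ) ^ M ≤ Real.exp (-(3 / 2) * Real.log d) := by
    calc (197 / 200 : ℝ) ^ M ≤ (Real.exp (-(3 / 200))) ^ M := pow_le_pow_left₀ (by norm_num) h1 M
      _ = Real.exp (M * (-(3 / 200))) := (Real.exp_nat_mul _ _).symm
      _ ≤ Real.exp (-(3 / 2) * Real.log d) := by
        apply Real.exp_le_exp.2
        linarith
  have h3 : Real.exp (-(3 / 2) * Real.log d) = (d : ℝ) ^ (-(3 / 2) : ℝ) := by
    rw [Real.rpow_def_of_pos hdp]; ring_nf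
  rw [h3] at h2
  have h4 : (d : ℝ) * (d : ℝ) ^ (-(3 / 2) : ℝ) = (d : ℝ) ^ (-(1 / 2) : ℝ) := by
    nth_rewrite 1 [← Real.rpow_one (d : ℝ)]
    rw [← Real.rpow_add hdp]; norm_num
  have h5 : (d : ℝ) ^ (-(1 / 2) : ℝ) ≤ 1 / 140 := by
    rw [Real.rpow_neg hdp.le, ← Real.sqrt_eq_rpow, one_div]
    refine inv_anti₀ (by norm_num) ?_
    rw [Real.le_sqrt (by norm_num) hdp.le]
    norm_num; linarith
  have h6 : (d : ℝ) * (197 / 200 : ℝ) ^ M ≤ 1 / 140 := by
    calc (d : ℝ) * (197 / 200 : ℝ) ^ M ≤ (d : ℝ) * (d : ℝ) ^ (-(3 / 2) : ℝ) :=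
          mul_le_mul_of_nonneg_left h2 hdp.le
      _ ≤ 1 / 140 := by rw [h4]; exact h5
  nlinarith

theorem t_PSB : Pool.Agent.Q284.PX.S_PSB := by
  refine ⟨20000, fun d hd p h x M hM hx0 hx h0 hrec hp1 hp2 => ?_⟩
  have hlog : (1 : ℝ) ≤ Real.log d := by
    rw [Real.le_log_iff_exp_le (by
      have : (20000 : ℝ) ≤ d := by exact_mod_cast hd
      linarith)]
    have h1 : (20000 : ℝ) ≤ d := by exact_mod_cast hd
    have := Real.exp_one_lt_d9
    linarith
  have hM100 : 100 ≤ M := by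
    have : (100 : ℝ) ≤ M := by linarith
    exact_mod_cast this
  have habs : ∀ k : ℕ, 1 ≤ k → (k : ℝ) * |h k| ≤ ∑ i ∈ Icc 1 k, |p i| * |h (k - i)| := by
    intro k hk
    have h1 : (k : ℝ) * |h k| = |(k : ℝ) * h k| := by
      rw [abs_mul, abs_of_nonneg (Nat.cast_nonneg k : (0:ℝ) ≤ k)]
    rw [h1, hrec k hk]
    refine (Finset.abs_sum_le_sum_abs _ _).trans (le_of_eq ?_)
    exact Finset.sum_congr rfl fun i _ => abs_mul _ _
  constructor
  · intro k
    induction k using Nat.strong_induction_on with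
    | _ k ih =>
      rcases Nat.eq_zero_or_pos k with rfl | hk
      · rw [h0]; norm_num
      · have hkR : (1 : ℝ) ≤ k := by exact_mod_cast hk
        set R : ℝ := (3 : ℝ) ^ ((k : ℝ) / 64) with hR
        have hRp : 0 < R := by positivity
        have h1 : ∑ i ∈ Icc 1 k, |p i| * |h (k - i)| ≤
            ∑ i ∈ Icc 1 k, (2 * R * x * ((i : ℝ) * (197 / 200 : ℝ) ^ i) +
              2 * R * d * (if M ≤ i then (197 / 200 : ℝ) ^ i else 0)) := by
          refine Finset.sum_le_sum fun i hi => ?_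
          rw [Finset.mem_Icc] at hi
          have h2 : |h (k - i)| ≤ 2 * (R * (197 / 200 : ℝ) ^ i) := by
            refine (ih (k - i) (by omega)).trans ?_
            exact mul_le_mul_of_nonneg_left (rho_pow k i hi.2) (by norm_num)
          have hti : (0 : ℝ) < (197 / 200 : ℝ) ^ i := by positivity
          have h3 : |p i| * |h (k - i)| ≤ |p i| * (2 * (R * (197 / 200 : ℝ) ^ i)) :=
            mul_le_mul_of_nonneg_left h2 (abs_nonneg _)
          refine h3.trans ?_
          have hT : 0 ≤ 2 * (R * (197 / 200 : ℝ) ^ i) := by positivity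
          by_cases hMi : M ≤ i
          · rw [if_pos hMi]
            have h4 := mul_le_mul_of_nonneg_right (hp2 i hi.1) hT
            have h5 : 0 ≤ 2 * R * x * ((i : ℝ) * (197 / 200 : ℝ) ^ i) := by positivity
            nlinarith
          · rw [if_neg hMi, mul_zero, add_zero]
            have h4 := mul_le_mul_of_nonneg_right (hp1 i hi.1 (by omega)) hT
            nlinarith
        rw [Finset.sum_add_distrib, ← Finset.mul_sum, ← Finset.mul_sum] at h1
        have h2 : 2 * R * x * ∑ i ∈ Icc 1 k, (i : ℝ) * (197 / 200 : ℝ) ^ i ≤ 2 * R * (1 / 2) := by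
          have h3 := sum_nat_mul_geo k
          have h4 : 0 ≤ ∑ i ∈ Icc 1 k, (i : ℝ) * (197 / 200 : ℝ) ^ i :=
            Finset.sum_nonneg fun i _ => by positivity
          have h5 : x * ∑ i ∈ Icc 1 k, (i : ℝ) * (197 / 200 : ℝ) ^ i ≤ 1 / 2 := by
            calc x * ∑ i ∈ Icc 1 k, (i : ℝ) * (197 / 200 : ℝ) ^ i ≤ (1 / 10 ^ 4) * 4378 :=
                  mul_le_mul hx h3 h4 (by norm_num)
              _ ≤ 1 / 2 := by norm_num
          rw [mul_assoc (2 * R) x]
          exact mul_le_mul_of_nonneg_left h5 (by positivity)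
        have h3 : 2 * R * d * ∑ i ∈ Icc 1 k, (if M ≤ i then (197 / 200 : ℝ) ^ i else 0) ≤ 2 * R * (1 / 2) := by
          have h4 := small_pow hd hM
          have h5 : (d : ℝ) * ∑ i ∈ Icc 1 k, (if M ≤ i then (197 / 200 : ℝ) ^ i else 0) ≤ 1 / 2 :=
            (mul_le_mul_of_nonneg_left (sum_geo k M) (Nat.cast_nonneg d)).trans h4
          rw [mul_assoc (2 * R) (d : ℝ)]
          exact mul_le_mul_of_nonneg_left h5 (by positivity)
        have h6 : (k : ℝ) * |h k| ≤ 2 * R := by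
          have := habs k hk
          linarith
        have h7 := abs_nonneg (h k)
        nlinarith
  · intro k
    induction k using Nat.strong_induction_on with
    | _ k ih =>
      intro hk hk100
      have hkR : (1 : ℝ) ≤ k := by exact_mod_cast hk
      have hkR2 : (k : ℝ) ≤ 100 := by exact_mod_cast hk100.le
      have h1 : ∑ i ∈ Icc 1 k, |p i| * |h (k - i)| ≤
          ∑ i ∈ Icc 1 k, ((k : ℝ) * x * (2 * x) + (if k = i then (k : ℝ) * x else 0)) := by
        refine Finset.sum_le_sum fun i hi => ?_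
        rw [Finset.mem_Icc] at hi
        have hpi := hp1 i hi.1 (by omega)
        have hi' : (i : ℝ) ≤ k := by exact_mod_cast hi.2
        have hpi' : |p i| ≤ k * x := hpi.trans (mul_le_mul_of_nonneg_right hi' hx0)
        by_cases hik : k = i
        · rw [if_pos hik]
          subst hik
          rw [Nat.sub_self, h0, abs_one, mul_one]
          have : 0 ≤ (k : ℝ) * x * (2 * x) := by positivity
          linarith
        · rw [if_neg hik, add_zero]
          exact mul_le_mul hpi' (ih (k - i) (by omega) (by omega) (by omega)) (abs_nonneg _) (by positivity)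
      rw [Finset.sum_add_distrib, Finset.sum_ite_eq, if_pos (Finset.mem_Icc.2 ⟨hk, le_refl k⟩),
        Finset.sum_const, Nat.card_Icc, nsmul_eq_mul] at h1
      have h2 := habs k hk
      have h3 : (k : ℝ) * |h k| ≤ k * (2 * k * x ^ 2 + x) := by
        refine (h2.trans h1).trans (le_of_eq ?_)
        push_cast [Nat.add_sub_cancel]
        ring
      have h4 : |h k| ≤ 2 * k * x ^ 2 + x := le_of_mul_le_mul_left h3 (by linarith)
      have h5 : 2 * (k : ℝ) * x ≤ 1 := by nlinarith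
      nlinarith

end Pool.Agent.Q79.PX
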